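import Pool.Agent.Helper10.Miss.Main

set_option autoImplicit false

open Pool.Agent.Helper10.Miss

namespace Pool.Agent.Results.MP_657ff6_co.EvenMissing

/-- For every `n > 34`, more partitions of `n` have an even number of missing integers than an odd
number of missing integers. -/
theorem result : ∀ n : ℕ, 34 < n → Mo n < Me n :=
  Pool.Agent.Helper10.Miss.main

end Pool.Agent.Results.MP_657ff6_co.EvenMissing
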